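import Pool.Agent.Helper21.LQ.Defs

set_option autoImplicit false

/-!
# PSTEP: all one-step estimates of one star
-/

namespace Pool.Agent.Helper21.LQ

open Finset

section
variable {R Γ : Type} [Fintype R] [DecidableEq R] [Fintype Γ] [DecidableEq Γ]

theorem pstep_zero {p : (R → Option Γ) → ℝ} {y : R → Γ → ℝ} (hd : IsDist p) (hm : Marg p y)
    {r : R} {γ : Γ} (h0 : y r γ ≤ 0) {f : R → Option Γ} (hf : p f ≠ 0) : f r ≠ some γ := by
  intro h
  have h1 := hm r γ
  have h2 : p f ≤ ∑ f : R → Option Γ, (if f r = some γ then p f else 0) := by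
    have := single_le_sum (s := univ) (f := fun f : R → Option Γ => if f r = some γ then p f else 0)
      (fun g _ => by
        split_ifs
        · exact hd.1 g
        · exact le_rfl) (mem_univ f)
    simpa [h] using this
  have h3 : 0 ≤ p f := hd.1 f
  exact hf (le_antisymm (by linarith) h3)

theorem pstep_row {p : (R → Option Γ) → ℝ} {y : R → Γ → ℝ} (hd : IsDist p) (hm : Marg p y)
    (r : R) : ∑ γ, y r γ ≤ 1 := by
  have h1 : ∑ γ, y r γ = ∑ f : R → Option Γ, ∑ γ, (if f r = some γ then p f else 0) := by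
    rw [sum_comm]
    exact sum_congr rfl fun γ _ => (hm r γ).symm
  rw [h1, ← hd.2]
  refine sum_le_sum fun f _ => ?_
  cases hf : f r with
  | none => simpa using hd.1 f
  | some g => simp

theorem pstep_col {f : R → Option Γ} (hf : Inj f) (NQ : Finset R) (γ : Γ) :
    ∑ q : {r // r ∈ NQ}, (if f q.1 = some γ then (1 : ℝ) else 0) ≤ 1 := by
  rw [sum_ite, sum_const_zero, add_zero, sum_const, nsmul_eq_mul, mul_one]
  have : (univ.filter (fun q : {r // r ∈ NQ} => f q.1 = some γ)).card ≤ 1 := by
    rw [card_le_one]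
    intro a ha b hb
    simp only [mem_filter, mem_univ, true_and] at ha hb
    exact Subtype.ext (hf _ _ _ ha hb)
  exact_mod_cast this

theorem pstep_one (f : R → Option Γ) (K : Finset Γ) (v : R) :
    ∑ q : {γ // γ ∈ K}, (if f v = some q.1 then (1 : ℝ) else 0) ≤ 1 := by
  rw [sum_ite, sum_const_zero, add_zero, sum_const, nsmul_eq_mul, mul_one]
  have : (univ.filter (fun q : {γ // γ ∈ K} => f v = some q.1)).card ≤ 1 := by
    rw [card_le_one]
    intro a ha b hb
    simp only [mem_filter, mem_univ, true_and] at ha hb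
    rw [ha] at hb
    exact Subtype.ext (Option.some.inj hb)
  exact_mod_cast this

end

theorem st_PSTEP (hLIN : ST_LIN) (hBIL : ST_BIL) : ST_PSTEP := by
  intro R Γ _ _ _ _ X y p c D Xm N C Good hXm hc0 hc2 hD hC hX hch
  obtain ⟨hd, hm, hinj, hgood, hy0, hyle, hsupp⟩ := hch
  have hDpos : 0 < D := by linarith
  have hXm0 : 0 < Xm := by linarith
  have hX0 : ∀ r γ, 0 ≤ X r γ ∧ X r γ ≤ Xm := by
    intro r γ
    rcases hX r γ with h | h
    · rw [h]; exact ⟨le_rfl, hXm0.le⟩
    · exact ⟨by linarith [h.1], h.2⟩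
  have hy2 : ∀ r γ, y r γ ≤ 2 * Xm / D := by
    intro r γ
    refine (hyle r γ).trans ?_
    gcongr
    · exact (hX0 r γ).1
    · exact (hX0 r γ).2
  have hyhalf : ∀ r γ, y r γ ≤ 1 / 2 := by
    intro r γ
    refine (hy2 r γ).trans ?_
    rw [div_le_div_iff₀ hDpos (by norm_num)]
    linarith
  have hyN : ∀ r γ, y r γ ≤ if r ∈ N then 2 * Xm / D else 0 := by
    intro r γ
    split_ifs with h
    · exact hy2 r γ
    · rw [hsupp r γ (by rw [hC r h]; simp)]
  have hsup : ∀ f, p f ≠ 0 → ∀ r γ, f r = some γ → γ ∈ C r ∧ X r γ ≠ 0 := by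
    intro f hf r γ hfr
    constructor
    · by_contra h
      exact pstep_zero hd hm (hsupp r γ h).le hf hfr
    · intro h
      refine pstep_zero hd hm ?_ hf hfr
      have := hyle r γ
      rw [h, mul_zero, zero_div] at this
      exact this
  have hyI : ∀ r γ, 0 ≤ y r γ ∧ y r γ ≤ 1 / 2 := fun r γ => ⟨hy0 r γ, hyhalf r γ⟩
  refine ⟨hyhalf, hsup, ?_, ?_, ?_, ?_⟩
  · -- update
    intro f r γ b hb
    unfold post
    by_cases hf : f r = some γ
    · left
      rw [if_pos hf]
    rw [if_neg hf]
    rcases hb with h | ⟨h1, h2⟩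
    · left
      rw [h, zero_div]
    · right
      have h1y : 0 < 1 - y r γ := by linarith [hyhalf r γ]
      have hXp : 0 < X r γ := by linarith
      constructor
      · rw [le_div_iff₀ h1y]
        linarith [hy0 r γ]
      · have e : 1 / (X r γ / (1 - y r γ)) = 1 / X r γ - y r γ / X r γ := by
          field_simp
        rw [e]
        have : y r γ / X r γ ≤ c * (if γ ∈ C r then 1 / D else 0) := by
          split_ifs with hg
          · rw [div_le_iff₀ hXp]
            refine (hyle r γ).trans (le_of_eq ?_)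
            ring
          · rw [hsupp r γ hg, zero_div, mul_zero]
        linarith
  · -- linear
    intro a lam ha hone hlam
    refine (hLIN R Γ X y a p Xm lam hX0 hyI ha hd hm ?_ hlam).trans ?_
    · intro f hf
      exact hone f (hgood f hf) (hinj f hf) (fun r γ h => (hsup f hf r γ h).1)
    · rw [Real.exp_le_exp]
      have h1 : lin a y ≤ 2 * Xm * ∑ r ∈ N, ∑ γ, a r γ / D := by
        unfold lin
        have h2 : ∀ r, ∑ γ, a r γ * y r γ ≤ if r ∈ N then 2 * Xm * ∑ γ, a r γ / D else 0 := by
          intro r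
          split_ifs with h
          · rw [mul_sum]
            refine sum_le_sum fun γ _ => ?_
            have := mul_le_mul_of_nonneg_left (hy2 r γ) (ha r γ)
            refine this.trans (le_of_eq ?_)
            ring
          · refine le_of_eq (sum_eq_zero fun γ _ => ?_)
            rw [hsupp r γ (by rw [hC r h]; simp), mul_zero]
        refine (sum_le_sum fun r _ => h2 r).trans (le_of_eq ?_)
        rw [← sum_filter, filter_mem_eq_inter, univ_inter, mul_sum]
      have h3 : 0 ≤ 4 * Xm ^ 2 * lam ^ 2 := by positivity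
      calc 4 * Xm ^ 2 * lam ^ 2 * lin a y
          ≤ 4 * Xm ^ 2 * lam ^ 2 * (2 * Xm * ∑ r ∈ N, ∑ γ, a r γ / D) :=
            mul_le_mul_of_nonneg_left h1 h3
        _ = _ := by ring
  · -- covariances
    intro NQ γ γ' lam hne hlam hl
    have hb := hBIL R Γ {r // r ∈ NQ} X y p (fun q => (q.1, γ)) (fun q => (q.1, γ')) 1 Xm lam
      hX0 hXm zero_le_one le_rfl hyI hd hm
      (by
        intro f _ q hq
        simp only at hq
        rw [hq.1] at hq
        exact hne (Option.some.inj hq.2))
      (fun f hf => pstep_col (hinj f hf) NQ γ) (fun f hf => pstep_col (hinj f hf) NQ γ')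
      (by rw [abs_of_nonneg hlam]; exact hl)
    have hcov : ∀ Z : R → Γ → ℝ, cov NQ γ γ' Z =
        bil (Q := {r // r ∈ NQ}) (fun q => (q.1, γ)) (fun q => (q.1, γ')) 1 Z := by
      intro Z
      unfold cov bil
      exact (sum_coe_sort NQ (fun r => (Z r γ - 1) * (Z r γ' - 1))).symm
    simp only [hcov]
    refine hb.trans ?_
    rw [Real.exp_le_exp, max_eq_right (by linarith), zero_mul, zero_add]
    have h1 : ∑ q : {r // r ∈ NQ}, (y q.1 γ + y q.1 γ') ≤
        4 * Xm * ∑ r ∈ NQ, (if r ∈ N then 1 / D else 0) := by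
      rw [sum_coe_sort NQ (fun r => y r γ + y r γ'), mul_sum]
      refine sum_le_sum fun r _ => ?_
      have h2 := hyN r γ
      have h3 := hyN r γ'
      split_ifs at h2 h3 ⊢ with h
      · have : 4 * Xm * (1 / D) = 2 * Xm / D + 2 * Xm / D := by ring
        rw [this]
        exact add_le_add h2 h3
      · linarith
    calc 98 * Xm ^ 4 * lam ^ 2 * ∑ q : {r // r ∈ NQ}, (y q.1 γ + y q.1 γ')
        ≤ 98 * Xm ^ 4 * lam ^ 2 * (4 * Xm * ∑ r ∈ NQ, (if r ∈ N then 1 / D else 0)) :=
          mul_le_mul_of_nonneg_left h1 (by positivity)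
      _ = _ := by ring
  · -- edges
    intro v w K lam hvw hlam hl
    have hb := hBIL R Γ {g // g ∈ K} X y p (fun q => (v, q.1)) (fun q => (w, q.1)) 0 Xm (-lam)
      hX0 hXm le_rfl zero_le_one hyI hd hm
      (by
        intro f hf q hq
        exact hvw (hinj f hf _ _ _ hq.1 hq.2))
      (fun f _ => pstep_one f K v) (fun f _ => pstep_one f K w)
      (by rw [abs_neg, abs_of_nonneg hlam]; exact hl)
    have hedg : ∀ Z : R → Γ → ℝ, edg v w K Z =
        bil (Q := {g // g ∈ K}) (fun q => (v, q.1)) (fun q => (w, q.1)) 0 Z := by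
      intro Z
      unfold edg bil
      rw [← sum_coe_sort K (fun g => Z v g * Z w g)]
      exact sum_congr rfl fun q _ => by ring
    have hsum : ∀ f : R → Option Γ, lam * (edg v w K X - edg v w K (post X y f)) =
        -lam * (bil (Q := {g // g ∈ K}) (fun q => (v, q.1)) (fun q => (w, q.1)) 0 (post X y f) -
          bil (Q := {g // g ∈ K}) (fun q => (v, q.1)) (fun q => (w, q.1)) 0 X) := by
      intro f
      rw [hedg, hedg]
      ring
    simp only [hsum]
    refine hb.trans ?_
    rw [Real.exp_le_exp, neg_neg, max_eq_left hlam, neg_sq]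
    have h1 : ∑ q : {g // g ∈ K}, y v q.1 * y w q.1 ≤ 2 * Xm * (if v ∈ N then 1 / D else 0) := by
      rw [sum_coe_sort K (fun g => y v g * y w g)]
      have h2 : ∀ g ∈ K, y v g * y w g ≤ 2 * Xm * (if v ∈ N then 1 / D else 0) * y w g := by
        intro g _
        refine mul_le_mul_of_nonneg_right ?_ (hy0 w g)
        have := hyN v g
        split_ifs at this ⊢
        · refine this.trans (le_of_eq ?_)
          ring
        · linarith
      refine (sum_le_sum h2).trans ?_
      rw [← mul_sum]
      have h3 : ∑ g ∈ K, y w g ≤ 1 :=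
        (sum_le_sum_of_subset_of_nonneg (subset_univ K) (fun g _ _ => hy0 w g)).trans
          (pstep_row hd hm w)
      have h4 : 0 ≤ 2 * Xm * (if v ∈ N then 1 / D else 0) := by
        split_ifs <;> positivity
      calc _ ≤ 2 * Xm * (if v ∈ N then 1 / D else 0) * 1 := mul_le_mul_of_nonneg_left h3 h4
        _ = _ := mul_one _
    have h5 : ∑ q : {g // g ∈ K}, (y v q.1 + y w q.1) ≤
        2 * Xm * K.card * ((if v ∈ N then 1 / D else 0) + (if w ∈ N then 1 / D else 0)) := by
      rw [sum_coe_sort K (fun g => y v g + y w g)]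
      have h6 : ∀ g ∈ K, y v g + y w g ≤
          2 * Xm * ((if v ∈ N then 1 / D else 0) + (if w ∈ N then 1 / D else 0)) := by
        intro g _
        have h2 := hyN v g
        have h3 := hyN w g
        have e1 : 2 * Xm / D = 2 * Xm * (1 / D) := by ring
        rw [e1] at h2 h3
        rw [mul_add]
        refine add_le_add ?_ ?_
        · split_ifs at h2 ⊢ <;> linarith
        · split_ifs at h3 ⊢ <;> linarith
      refine (sum_le_sum h6).trans (le_of_eq ?_)
      rw [sum_const, nsmul_eq_mul]
      ring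
    have h7 : lam * (4 * Xm ^ 2 * ∑ q : {g // g ∈ K}, y v q.1 * y w q.1) ≤
        lam * (4 * Xm ^ 2 * (2 * Xm * (if v ∈ N then 1 / D else 0))) :=
      mul_le_mul_of_nonneg_left (mul_le_mul_of_nonneg_left h1 (by positivity)) hlam
    have h8 : 98 * Xm ^ 4 * lam ^ 2 * ∑ q : {g // g ∈ K}, (y v q.1 + y w q.1) ≤
        98 * Xm ^ 4 * lam ^ 2 * (2 * Xm * K.card *
          ((if v ∈ N then 1 / D else 0) + (if w ∈ N then 1 / D else 0))) :=
      mul_le_mul_of_nonneg_left h5 (by positivity)
    refine (add_le_add h7 h8).trans (le_of_eq ?_)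
    ring

end Pool.Agent.Helper21.LQ
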